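import Pool.Agent.H98.RS.Fld
import Pool.Agent.H12.RS.Cf
import Pool.Agent.H53.ES.Wn
import Pool.Agent.H85.RS.Base
import Pool.Agent.H70.RG.Chain

/-!
# H98.RS.Mk: marks of the rule R* from the inequalities on the faces (RS-G2)
-/

set_option autoImplicit false
set_option linter.unusedSectionVars false

namespace Pool.Agent.H98.RS

open Finset Pool.Agent.H84L Pool.Agent.H93.EA Pool.Agent.H70.ES Pool.Agent.H69L.TP
open Pool.Agent.H12.RS (nw zz hf zp FH gq)
open Pool.Agent.H85.TK (zs Cb)
open scoped Classical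

section rule

variable {c r : ℕ} {I : Finset ℕ} {w : ℕ → Bool}

theorem fa_all (hcr : c ≤ r) (hw : Cb c r I w) : Pool.Agent.H53.ES.Fa c r I w :=
  Pool.Agent.H53.ES.fa hw hcr (fun _ hy => Pool.Agent.H85.RS.X_a hw hy)
    (fun _ hb => Pool.Agent.H85.RS.X_e hcr hb)

theorem zs_compl (w : ℕ → Bool) (a b : ℕ) (hab : a ≤ b) : zs w a b + zs (nw w) a b = b - a := by
  unfold zs nw
  have h1 := card_filter_add_card_filter_not (s := Ico a b) (fun i => w i = false)
  rw [Nat.card_Ico] at h1
  rw [← h1]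
  congr 2
  ext i
  simp

theorem cb_cst (h : Cst (c + r) I w) : Cb c r I w := Pool.Agent.H53.ES.cb_of h

theorem cb_nw (h : Cb c r I w) : Cb c r I (nw w) := Pool.Agent.H53.ES.cb_cw h

/-- The rule R*. -/
def Rs (hc : 0 < c) (hcr : c ≤ r) : Rul c r where
  z := fun w I => zz c r w I
  hZ := fun w I => union_subset (Pool.Agent.H12.RS.X_sub c r I w)
    (Pool.Agent.H12.RS.X_sub c r I (nw w))
  hWp := fun w I => Pool.Agent.H12.RS.W_sub c r I (nw w)
  hWm := fun w I => Pool.Agent.H12.RS.W_sub c r I w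
  count := by
    intro w I hI
    have h1 := (fa_all hcr (cb_cst hI)).tot
    have h2 := (fa_all hcr (cb_nw (cb_cst hI))).tot
    have h3 := zs_compl w 0 c (Nat.zero_le _)
    have h4 : Disjoint (Pool.Agent.H12.RS.X c r I w) (Pool.Agent.H12.RS.X c r I (nw w)) := by
      rw [disjoint_left]
      intro j hj hj'
      have e1 := Pool.Agent.H12.RS.X_one hj
      have e2 := Pool.Agent.H12.RS.X_one hj'
      unfold nw at e2
      rw [e1] at e2
      exact absurd e2 (by decide)
    show (Pool.Agent.H12.RS.X c r I w ∪ Pool.Agent.H12.RS.X c r I (nw w)).card +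
      (Pool.Agent.H12.RS.W c r I (nw w)).card + (Pool.Agent.H12.RS.W c r I w).card = c
    rw [card_union_of_disjoint h4]
    omega
  pair := by
    intro u v I I' huv hu hv
    exact Pool.Agent.H53.ES.pair_z hcr (by omega) (fun _ _ hw => fa_all hcr hw) huv hu hv

end rule

/-- The values of the field of `FH` and of `vf`. -/
theorem vf_eq {c r : ℕ} (δ : ℝ) (x : Mk) {g : ℕ} (hg : g ≠ r) :
    vf c r δ x g = hf c r x g + if g = 0 then δ else 0 := by
  unfold vf hf
  by_cases h0 : g = 0
  · simp only [if_pos h0]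
  · simp only [if_neg h0, if_neg hg, add_zero]

section

variable {α : Type} [Fintype α] {c r l : ℕ}

theorem ff_eq (hc : 0 < c) (hcr : c ≤ r) (δ : ℝ) (ρ : ℕ → α → ℕ) (m N : ℕ)
    (t : Fin (l + 1) → ℕ) (j : Fin (l + 1)) (hj : j.val ≠ r) :
    ff (Rs hc hcr) δ ρ m N t j =
      FH ρ m c r N (ex t) j.val + if j.val = 0 then δ * (Fintype.card α : ℝ) else 0 := by
  unfold ff FH
  have h1 : ∀ a ∈ (univ : Finset α), vf c r δ ((Rs hc hcr).z (wd ρ m (c + r) (ex t) a)
      (eg (c + r) N (ex t))) j.val = hf c r (zp ρ m c r N (ex t) a) j.val +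
        if j.val = 0 then δ else 0 := by
    intro a _
    rw [vf_eq δ _ hj]
    unfold zp Rs
    congr 1
  rw [sum_congr rfl h1, sum_add_distrib, sum_const, card_univ, nsmul_eq_mul]
  by_cases h0 : j.val = 0
  · rw [if_pos h0, if_pos h0, mul_comm]
  · rw [if_neg h0, if_neg h0, mul_zero]

end

theorem gq_gp {l N : ℕ} (t : Fin (l + 1) → ℕ) (g : Fin (l + 1)) :
    gq (l + 1) N (ex t) g.val = gp N t g := by
  unfold gq gp
  by_cases h0 : g.val = 0
  · rw [if_pos h0, if_pos h0, Nat.add_sub_cancel, ex_lt t (Nat.lt_succ_self l)]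
    rfl
  · rw [if_neg h0, if_neg h0, ex_lt t g.2, ex_lt t (show g.val - 1 < l + 1 by omega)]

/-- There are at least `n - 1` times. -/
theorem times {α : Type} [Fintype α] {N : ℕ} {ρ : ℕ → α → ℕ} (h : ASeq N ρ) :
    Fintype.card α ≤ N + 1 := by
  rcases Nat.eq_zero_or_pos (Fintype.card α) with h0 | h0
  · omega
  have himg : univ.image (ρ 0) = range (Fintype.card α) := by
    apply eq_of_subset_of_card_le
    · intro x hx
      obtain ⟨a, -, rfl⟩ := mem_image.1 hx
      exact mem_range.2 (h.lt_card 0 (Nat.zero_le _) a)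
    · rw [card_range, card_image_of_injective _ (h.inj 0 (Nat.zero_le _)), card_univ]
  obtain ⟨a, -, ha⟩ := mem_image.1 (himg ▸ mem_range.2 h0)
  have h1 := rev h a
  have h2 : ∀ t ≤ N, ρ t a ≤ t := by
    intro t
    induction t with
    | zero =>
      intro _
      rw [ha]
    | succ t ih =>
      intro ht
      have := ih (by omega)
      have := h.up t (by omega) a
      omega
  have := h2 N le_rfl
  omega

/-- The inequalities on the faces. -/
structure Faces (c r : ℕ) (κ : ℝ) : Prop where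
  G : ∀ (α : Type) [Fintype α] (N m : ℕ) (ρ : ℕ → α → ℕ), ASeq N ρ → Fintype.card α = 2 * m →
    ∀ τ : ℕ → ℕ, Cfg (c + r) N τ → ∀ g < c + r, g ≠ 0 → g ≠ r → gq (c + r) N τ g = 0 →
      0 ≤ FH ρ m c r N τ g
  N : ∀ (α : Type) [Fintype α] (N m : ℕ) (ρ : ℕ → α → ℕ), ASeq N ρ → Fintype.card α = 2 * m →
    ∀ τ : ℕ → ℕ, Cfg (c + r) N τ → ∀ g < c + r, ∀ g' < c + r, g ≠ 0 → g ≠ r → g ≠ c → g' ≠ 0 →
      (g' = g + c ∨ g' + (c + r) = g + c) → 1 ≤ gq (c + r) N τ g → gq (c + r) N τ g' ≤ 1 →
      FH ρ m c r N τ g ≤ κ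
  Np : ∀ (α : Type) [Fintype α] (N m : ℕ) (ρ : ℕ → α → ℕ), ASeq N ρ → Fintype.card α = 2 * m →
    ∀ τ : ℕ → ℕ, Cfg (c + r) N τ → 1 ≤ gq (c + r) N τ c →
      (∀ g < c + r, g ≠ 0 → g ≠ c → gq (c + r) N τ g ≤ 1) → FH ρ m c r N τ c ≤ κ
  T0 : ∀ (α : Type) [Fintype α] (N m : ℕ) (ρ : ℕ → α → ℕ), ASeq N ρ → Fintype.card α = 2 * m →
    ∀ τ : ℕ → ℕ, Cfg (c + r) N τ → (∀ g < c + r, g ≠ 0 → gq (c + r) N τ g ≤ 1) →
      FH ρ m c r N τ 0 ≤ -(Fintype.card α : ℝ) + κ
  Z : ∀ (α : Type) [Fintype α] (N m : ℕ) (ρ : ℕ → α → ℕ), ASeq N ρ → Fintype.card α = 2 * m →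
    ∀ τ : ℕ → ℕ, Cfg (c + r) N τ → gq (c + r) N τ 0 = 0 → ∀ b < c,
      (b = 0 ∨ 1 ≤ gq (c + r) N τ (r + b)) →
      (∀ f, b < f → f < c → gq (c + r) N τ (r + f) ≤ 1) →
      -κ ≤ ((c : ℝ) - b) * FH ρ m c r N τ 0 +
        ∑ f ∈ Ico (b + 1) c, ((f : ℝ) - b) * FH ρ m c r N τ (r + f)

/-- **Marks from the faces.** -/
theorem marks_of_faces {k r c : ℕ} (hc : 0 < c) (hcr : c < r) (hco : Nat.Coprime c r) {κ : ℝ}
    (hκ : 0 ≤ κ) (hf : Faces c r κ) : Marks k r c := by
  have hr : 0 < r := by omega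
  obtain ⟨l, hl⟩ : ∃ l, c + r = l + 1 := ⟨c + r - 1, by omega⟩
  set δ : ℝ := (k : ℝ) * r / (((k + 1) * r + c : ℕ) : ℝ) with hδ
  have hLp : (0 : ℝ) < (((k + 1) * r + c : ℕ) : ℝ) := by
    have : 0 < (k + 1) * r + c := by positivity
    exact_mod_cast this
  have hδ0 : 0 ≤ δ := by
    rw [hδ]
    positivity
  have hδ1 : δ ≤ 1 := by
    rw [hδ, div_le_one hLp]
    push_cast
    have h1 : (0 : ℝ) ≤ r := Nat.cast_nonneg _
    have h2 : (0 : ℝ) ≤ c := Nat.cast_nonneg _
    nlinarith
  set Q : ℝ := (κ + 1) * ((c : ℝ) ^ 2 + 1) with hQ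
  have hQ0 : 0 ≤ Q := by
    rw [hQ]
    positivity
  refine marks_of_field (l := l) hc hr hl (Rs hc hcr.le) (S₀ := l + 2) (K₀ := (l + 1) * Q)
    (by positivity) (by positivity) ?_
  intro α _ N m ρ h hm hn
  have hN : l + 1 ≤ N := by
    have h1 := times h
    have h2 : l + 2 ≤ Fintype.card α := by exact_mod_cast hn
    omega
  have hcfg : ∀ {t : Fin (l + 1) → ℕ}, Adm N t → Cfg (c + r) N (ex t) := by
    intro t ht
    rw [hl]
    exact ex_cfg ht
  have hgq : ∀ (t : Fin (l + 1) → ℕ) (g : Fin (l + 1)), gq (c + r) N (ex t) g.val = gp N t g := by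
    intro t g
    rw [hl]
    exact gq_gp t g
  have hval : ∀ g : Fin (l + 1), g.val < c + r := fun g => by
    rw [hl]
    exact g.2
  set F : (Fin (l + 1) → ℕ) → Fin (l + 1) → ℝ := ff (Rs hc hcr.le) δ ρ m N with hF
  have hFe : ∀ (t : Fin (l + 1) → ℕ) (j : Fin (l + 1)), j.val ≠ 0 → j.val ≠ r →
      F t j = FH ρ m c r N (ex t) j.val := by
    intro t j h0 h1
    rw [hF, ff_eq hc hcr.le δ ρ m N t j h1, if_neg h0, add_zero]
  have hF0 : ∀ (t : Fin (l + 1) → ℕ), F t 0 = FH ρ m c r N (ex t) 0 + δ * (Fintype.card α : ℝ) := by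
    intro t
    have h1 : ((0 : Fin (l + 1)) : ℕ) ≠ r := by
      simp only [Fin.val_zero]
      omega
    rw [hF, ff_eq hc hcr.le δ ρ m N t 0 h1]
    simp
  have hbd : ∀ t, Adm N t → ∀ j, |F t j| ≤ 3 * (Fintype.card α : ℝ) := by
    intro t _ j
    rw [hF]
    unfold ff
    refine (abs_sum_le_sum_abs _ _).trans ?_
    calc _ ≤ ∑ _a : α, (3 : ℝ) := sum_le_sum fun a _ => abs_vf hδ0 hδ1 _ _
      _ = 3 * (Fintype.card α : ℝ) := by
        rw [sum_const, card_univ, nsmul_eq_mul, mul_comm]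
  have hsum : ∀ t, ∑ j : Fin l, F t j.succ = 0 := by
    intro t
    rw [hF]
    unfold ff
    rw [sum_comm]
    refine sum_eq_zero fun a _ => ?_
    have h1 := vf_sum hc hr δ ((Rs hc hcr.le).z (wd ρ m (c + r) (ex t) a) (eg (c + r) N (ex t)))
    have e : c + r - 1 = l := by omega
    rw [e, ← Fin.sum_univ_eq_sum_range (fun j => vf c r δ ((Rs hc hcr.le).z
      (wd ρ m (c + r) (ex t) a) (eg (c + r) N (ex t))) (j + 1)) l] at h1
    simpa using h1
  obtain ⟨M, hM, s, hs, hz⟩ := Pool.Agent.H70.RG.field_chain (N := N) (p := c) (r := r) hN hc hr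
    hl hco F (B := 3 * (Fintype.card α : ℝ)) (c0 := κ) (by positivity) hκ hbd
    (fun t ht g h0 h1 h2 => by
      rw [hFe t g h0 h1]
      have := hf.G α N m ρ h hm (ex t) (hcfg ht) g.val (hval g) h0 h1 (by rw [hgq]; exact h2)
      linarith)
    (fun t ht g g' h0 h1 h2 h3 h4 h5 h6 => by
      rw [hFe t g h0 h1]
      exact hf.N α N m ρ h hm (ex t) (hcfg ht) g.val (hval g) g'.val (hval g') h0 h1 h2 h3
        (by rw [hl]; exact h4) (by rw [hgq]; exact h5) (by rw [hgq]; exact h6))
    (fun t ht g h0 h1 h2 h3 => by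
      rw [hFe t g (by omega) (by omega), h0]
      refine hf.Np α N m ρ h hm (ex t) (hcfg ht) ?_ ?_
      · have := hgq t g
        rw [h0] at this
        rw [this]
        exact h3
      · intro g' hg' h4 h5
        have := hgq t ⟨g', by omega⟩
        simp only at this
        rw [this]
        exact h2 ⟨g', by omega⟩ h4 h5)
    (fun t ht h1 => by
      rw [hF0]
      have h2 := hf.T0 α N m ρ h hm (ex t) (hcfg ht) (by
        intro g' hg' h4
        have := hgq t ⟨g', by omega⟩
        simp only at this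
        rw [this]
        exact h1 ⟨g', by omega⟩ h4)
      have h3 : δ * (Fintype.card α : ℝ) ≤ 1 * (Fintype.card α : ℝ) :=
        mul_le_mul_of_nonneg_right hδ1 (Nat.cast_nonneg _)
      linarith)
    (fun t ht h0 b hb h1 h2 => by
      have h3 := hf.Z α N m ρ h hm (ex t) (hcfg ht) (by
        have := hgq t 0
        simp only [Fin.val_zero] at this
        rw [this]
        exact h0) b hb (by
          rcases Nat.eq_zero_or_pos b with hb0 | hb0
          · exact Or.inl hb0
          · right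
            have := hgq t ⟨r + b, by omega⟩
            simp only at this
            rw [this]
            exact h1 ⟨r + b, by omega⟩ rfl hb0) (by
          intro f hf1 hf2
          have := hgq t ⟨r + f, by omega⟩
          simp only at this
          rw [this]
          exact h2 ⟨r + f, by omega⟩ (by simp only; omega))
      have h4 : (0 : ℝ) ≤ (c : ℝ) - b := by
        have : (b : ℝ) ≤ c := by exact_mod_cast hb.le
        linarith
      have h5 : (0 : ℝ) ≤ ((c : ℝ) - b) * (δ * (Fintype.card α : ℝ)) := by positivity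
      have h6 : ∑ g ∈ univ.filter (fun g : Fin (l + 1) => r + b < g.val),
          ((g.val : ℝ) - r - b) * F t g =
          ∑ f ∈ Ico (b + 1) c, ((f : ℝ) - b) * FH ρ m c r N (ex t) (r + f) := by
        symm
        refine sum_bij (fun f hf1 => (⟨r + f, by have := mem_Ico.1 hf1; omega⟩ : Fin (l + 1)))
          ?_ ?_ ?_ ?_
        · intro f hf1
          have := mem_Ico.1 hf1
          rw [mem_filter]
          exact ⟨mem_univ _, by simp only; omega⟩
        · intro f1 h1' f2 h2' he
          have := congrArg Fin.val he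
          simp only at this
          omega
        · intro g hg
          have h7 := (mem_filter.1 hg).2
          have h8 := g.2
          refine ⟨g.val - r, mem_Ico.2 ⟨by omega, by omega⟩, ?_⟩
          ext
          simp only
          omega
        · intro f hf1
          have h7 := mem_Ico.1 hf1
          rw [hFe t _ (by simp only; omega) (by simp only; omega)]
          simp only
          push_cast
          ring
      rw [h6, hF0]
      nlinarith)
  refine ⟨M, hM, s, hs, ?_⟩
  have hr' : r < l + 1 := by omega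
  have hQl : Q ≤ ((l : ℝ) + 1) * Q := by
    have : (0 : ℝ) ≤ l * Q := by positivity
    linarith
  intro j
  by_cases hj : j.val = r
  · -- the component `r`
    have hs0 : ∑ j : Fin l, fhat F M s j.succ = 0 := by
      unfold fhat
      rw [← sum_div, sum_comm, sum_eq_zero (fun θ _ => hsum _), zero_div]
    obtain ⟨i, hi⟩ : ∃ i : Fin l, i.succ = j := by
      rw [Fin.exists_succ_eq]
      intro h0
      rw [h0] at hj
      simp only [Fin.val_zero] at hj
      omega
    have h1 := sum_erase_eq_sub (s := (univ : Finset (Fin l))) (f := fun i => fhat F M s i.succ)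
      (mem_univ i)
    rw [hs0, hi] at h1
    have h2 : fhat F M s j = - ∑ x ∈ univ.erase i, fhat F M s x.succ := by
      rw [h1]
      ring
    rw [h2, abs_neg]
    calc |∑ x ∈ univ.erase i, fhat F M s x.succ| ≤ ∑ x ∈ univ.erase i, |fhat F M s x.succ| :=
          abs_sum_le_sum_abs _ _
      _ ≤ ∑ _x ∈ univ.erase i, Q := by
          refine sum_le_sum fun x hx => ?_
          refine hz x.succ ?_
          intro h3
          have h4 : x.succ = i.succ := by
            rw [hi]
            ext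
            rw [h3, hj]
          exact (mem_erase.1 hx).1 (Fin.succ_injective _ h4)
      _ ≤ ∑ _x : Fin l, Q := by
          refine sum_le_sum_of_subset_of_nonneg (erase_subset _ _) fun _ _ _ => hQ0
      _ = l * Q := by
          rw [sum_const, card_univ, Fintype.card_fin, nsmul_eq_mul]
      _ ≤ ((l : ℝ) + 1) * Q := by
          nlinarith
  · exact (hz j hj).trans hQl

end Pool.Agent.H98.RS
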