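import Pool.Agent.H69L.TP.Top

/-!
# H98.RS.Fld: marks from a small value of the averaged field

Adapted from `marks_of_rule` of H69L.TP.Top; the topology is a hypothesis here.
-/

set_option autoImplicit false
set_option linter.unusedSectionVars false

namespace Pool.Agent.H98.RS

open Finset Pool.Agent.H84L Pool.Agent.H93.EA Pool.Agent.H70.ES Pool.Agent.H69L.TP
open scoped Classical

/-- A rule: marks of a word for a set of empty gaps. -/
structure Rul (c r : ℕ) where
  z : (ℕ → Bool) → Finset ℕ → Mk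
  hZ : ∀ w I, (z w I).Z ⊆ range r
  hWp : ∀ w I, (z w I).Wp ⊆ range c
  hWm : ∀ w I, (z w I).Wm ⊆ range c
  count : ∀ w I, Cst (c + r) I w → (z w I).Z.card + (z w I).Wp.card + (z w I).Wm.card = c
  pair : ∀ u v I I', Cx (c + r) u v → Cst (c + r) I u → Cst (c + r) I' v →
    PI c r u v (z u I) (z v I')

/-- The pair inequality of the marks gives the pair property. -/
lemma pprop_of {α : Type} [Fintype α] {N : ℕ} {ρ : ℕ → α → ℕ} (h : ASeq N ρ) {c r m : ℕ}
    (R : Rul c r) {τ : ℕ → ℕ} (hτ : Cfg (c + r) N τ) (I : α → Finset ℕ)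
    (hI : ∀ a, Cst (c + r) (I a) (wd ρ m (c + r) τ a)) :
    PProp c r (fun i => pre ρ (τ i) m) (fun a => (R.z (wd ρ m (c + r) τ a) (I a)).Z)
      (fun a => (R.z (wd ρ m (c + r) τ a) (I a)).Wp)
      (fun a => (R.z (wd ρ m (c + r) τ a) (I a)).Wm) := by
  intro u v
  have h1 := R.pair _ _ (I u) (I v) (wd_cx h (m := m) hτ u v) (hI u) (hI v)
  unfold PI at h1
  have key : ∀ i < c + r, ∀ a, (wd ρ m (c + r) τ a i = true ↔ a ∈ pre ρ (τ i) m) := by
    intro i hi a
    unfold wd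
    rw [decide_eq_true_iff, mem_pre]
    exact ⟨fun h => h.2, fun h => ⟨hi, h⟩⟩
  have key2 : ∀ i < c + r, ((wd ρ m (c + r) τ u i = wd ρ m (c + r) τ v i) ↔
      (u ∈ pre ρ (τ i) m ↔ v ∈ pre ρ (τ i) m)) := by
    intro i hi
    rw [← key i hi u, ← key i hi v]
    exact Bool.eq_iff_iff
  have e1 : ((range c).filter fun i => ¬ (wd ρ m (c + r) τ u i = wd ρ m (c + r) τ v i)).card =
      ((range c).filter fun i => ¬ (u ∈ pre ρ (τ i) m ↔ v ∈ pre ρ (τ i) m)).card := by
    congr 1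
    refine filter_congr fun i hi => ?_
    have := mem_range.1 hi
    rw [key2 i (by omega)]
  have e2 : ∀ x y : Mk, ((range r).filter fun j =>
      wd ρ m (c + r) τ u (c + j) = wd ρ m (c + r) τ v (c + j) ∧ (j ∈ x.Z ∨ j ∈ y.Z)).card =
      ((range r).filter fun j => (u ∈ pre ρ (τ (c + j)) m ↔ v ∈ pre ρ (τ (c + j)) m) ∧
        (j ∈ x.Z ∨ j ∈ y.Z)).card := by
    intro x y
    congr 1
    refine filter_congr fun j hj => ?_
    have := mem_range.1 hj
    rw [key2 (c + j) (by omega)]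
  have e3 : ∀ x y : Mk, ((range r).filter fun j =>
      ¬ (wd ρ m (c + r) τ u (c + j) = wd ρ m (c + r) τ v (c + j)) ∧ j ∈ x.Z ∧ j ∈ y.Z).card =
      ((range r).filter fun j => ¬ (u ∈ pre ρ (τ (c + j)) m ↔ v ∈ pre ρ (τ (c + j)) m) ∧
        j ∈ x.Z ∧ j ∈ y.Z).card := by
    intro x y
    congr 1
    refine filter_congr fun j hj => ?_
    have := mem_range.1 hj
    rw [key2 (c + j) (by omega)]
  rw [e1, e2, e3] at h1
  refine h1.trans (le_of_eq ?_)
  congr 1

/-- The field of a configuration. -/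
noncomputable def ff {α : Type} [Fintype α] {c r l : ℕ} (R : Rul c r) (δ : ℝ) (ρ : ℕ → α → ℕ)
    (m N : ℕ) (t : Fin (l + 1) → ℕ) (j : Fin (l + 1)) : ℝ :=
  ∑ a, vf c r δ (R.z (wd ρ m (c + r) (ex t) a) (eg (c + r) N (ex t))) j.val

/-- **Marks from a small value of the averaged field.** -/
theorem marks_of_field {k r c l : ℕ} (hc : 0 < c) (hr : 0 < r) (hC : c + r = l + 1) (R : Rul c r)
    {S₀ K₀ : ℝ} (hS₀ : 0 ≤ S₀) (hK₀ : 0 ≤ K₀)
    (hF : ∀ (α : Type) [Fintype α] (N m : ℕ) (ρ : ℕ → α → ℕ), ASeq N ρ →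
      Fintype.card α = 2 * m → S₀ ≤ (Fintype.card α : ℝ) →
      ∃ M, 0 < M ∧ ∃ s : Fin (l + 1) → ℕ, Adm (M * N) s ∧ ∀ j,
        |fhat (ff R ((k : ℝ) * r / (((k + 1) * r + c : ℕ) : ℝ)) ρ m N) M s j| ≤ K₀) :
    Marks k r c := by
  set Ln : ℕ := (k + 1) * r + c with hLn
  set Lr : ℝ := (Ln : ℝ) with hLr
  set δ : ℝ := (k : ℝ) * r / Lr with hδ
  have hc' : (1 : ℝ) ≤ c := by exact_mod_cast hc
  have hr' : (1 : ℝ) ≤ r := by exact_mod_cast hr
  have hk' : (0 : ℝ) ≤ k := Nat.cast_nonneg k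
  have hLe : Lr = (k + 1) * r + c := by
    rw [hLr, hLn]
    push_cast
    ring
  have hL0 : 0 < Lr := by
    rw [hLe]
    positivity
  have hL1 : 1 ≤ Lr := by
    rw [hLe]
    nlinarith
  have hδ0 : 0 ≤ δ := by
    rw [hδ]
    positivity
  have hδ1 : 1 - δ = (c + r) / Lr := by
    rw [hδ, hLe]
    have : (0 : ℝ) < (k + 1) * r + c := by positivity
    field_simp
    ring
  have hδ2 : δ ≤ 1 := by
    have : 0 ≤ (c + r) / Lr := by positivity
    linarith
  set K : ℝ := K₀ + (2 * 3 * (l + 1 : ℕ) * (Fintype.card (Fin (l + 1) → Bool) : ℕ) +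
    4 * 3 * (2 * (l + 1) : ℕ)) with hK
  have hK0 : 0 ≤ K := by
    rw [hK]
    positivity
  refine ⟨2 * (r + c + 2) * K + 4 * S₀, by positivity, ?_⟩
  intro α _ N ρ h hn
  set n : ℕ := Fintype.card α with hnd
  have hm : Fintype.card α = 2 * (n / 2) := by
    have : 2 ∣ n := (dvd_mul_right 2 _).trans hn
    omega
  set m : ℕ := n / 2 with hmd
  -- the conclusion for any family of marks
  have fin : ∀ τ : ℕ → ℕ, Cfg (c + r) N τ → ∀ I : α → Finset ℕ,
      (∀ a, Cst (c + r) (I a) (wd ρ m (c + r) τ a)) → ∀ D : ℝ, D ≤ 2 * (r + c + 2) * K + 4 * S₀ →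
      (∀ j < r, |((univ.filter fun a => j ∈ (R.z (wd ρ m (c + r) τ a) (I a)).Z).card : ℝ) -
        c * (n : ℝ) / Lr| ≤ D) →
      (∀ i < c, |(((univ.filter fun a => i ∈ (R.z (wd ρ m (c + r) τ a) (I a)).Wp).card : ℝ) +
        (univ.filter fun a => i ∈ (R.z (wd ρ m (c + r) τ a) (I a)).Wm).card) -
          (1 - r / Lr) * (n : ℝ)| ≤ D) →
      ∃ τ : ℕ → ℕ, (∀ j, τ j ≤ N) ∧ ∃ Z Wp Wm : α → Finset ℕ,
      PProp c r (fun i => pre ρ (τ i) m) Z Wp Wm ∧
      (∀ j < r, |((univ.filter fun a => j ∈ Z a).card : ℝ) - c * (n : ℝ) / Lr| ≤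
        2 * (r + c + 2) * K + 4 * S₀) ∧
      (∀ i < c, |(((univ.filter fun a => i ∈ Wp a).card : ℝ) +
        (univ.filter fun a => i ∈ Wm a).card) - (1 - r / Lr) * (n : ℝ)| ≤
        2 * (r + c + 2) * K + 4 * S₀) := by
    intro τ hτ I hI D hD h1 h2
    exact ⟨τ, hτ.le, _, _, _, pprop_of h R hτ I hI, fun j hj => (h1 j hj).trans hD,
      fun i hi => (h2 i hi).trans hD⟩
  have hn0 : (0 : ℝ) ≤ n := Nat.cast_nonneg n
  rcases lt_or_ge (n : ℝ) S₀ with hsm | hlg
  · -- few points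
    have hn1 : (n : ℝ) ≤ S₀ := hsm.le
    have hτ0 : Cfg (c + r) N (fun _ => 0) := ⟨rfl, fun _ _ _ _ => le_rfl, fun _ => Nat.zero_le _⟩
    have hcard : ∀ s : Finset α, (s.card : ℝ) ≤ n := by
      intro s
      have := Finset.card_le_univ s
      exact_mod_cast this
    have hq1 : 0 ≤ c * (n : ℝ) / Lr ∧ c * (n : ℝ) / Lr ≤ n := by
      constructor
      · positivity
      · rw [div_le_iff₀ hL0, hLe]
        nlinarith [mul_nonneg hn0 (by positivity : (0 : ℝ) ≤ (k + 1) * r)]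
    have hq2 : 0 ≤ (1 - r / Lr) * (n : ℝ) ∧ (1 - r / Lr) * (n : ℝ) ≤ n := by
      have h1 : 0 ≤ r / Lr := by positivity
      have h2 : r / Lr ≤ 1 := by
        rw [div_le_one hL0, hLe]
        nlinarith
      constructor
      · exact mul_nonneg (by linarith) hn0
      · nlinarith
    refine fin _ hτ0 (fun _ => ∅) (fun a => ⟨fun g hg => by simp at hg, fun hg => by simp at hg⟩)
      (4 * S₀) ?_ ?_ ?_
    · have : 0 ≤ 2 * (r + c + 2) * K := by positivity
      linarith
    · intro j hj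
      have h1 := hcard (univ.filter fun a => j ∈ (R.z (wd ρ m (c + r) (fun _ => 0) a) ∅).Z)
      have h2 : (0 : ℝ) ≤ ((univ.filter fun a => j ∈ (R.z (wd ρ m (c + r) (fun _ => 0) a) ∅).Z).card : ℝ) :=
        Nat.cast_nonneg _
      rw [abs_le]
      constructor <;> linarith [hq1.1, hq1.2]
    · intro i hi
      have h1 := hcard (univ.filter fun a => i ∈ (R.z (wd ρ m (c + r) (fun _ => 0) a) ∅).Wp)
      have h2 := hcard (univ.filter fun a => i ∈ (R.z (wd ρ m (c + r) (fun _ => 0) a) ∅).Wm)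
      have h3 : (0 : ℝ) ≤ ((univ.filter fun a => i ∈ (R.z (wd ρ m (c + r) (fun _ => 0) a) ∅).Wp).card : ℝ) :=
        Nat.cast_nonneg _
      have h4 : (0 : ℝ) ≤ ((univ.filter fun a => i ∈ (R.z (wd ρ m (c + r) (fun _ => 0) a) ∅).Wm).card : ℝ) :=
        Nat.cast_nonneg _
      rw [abs_le]
      constructor <;> linarith [hq2.1, hq2.2]
  · -- many points
    have hcfg : ∀ {t : Fin (l + 1) → ℕ}, Adm N t → Cfg (c + r) N (ex t) := by
      intro t ht
      rw [hC]
      exact ex_cfg ht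
    obtain ⟨M, hM, s, hs, hz⟩ := hF α N m ρ h hm hlg
    -- the final configuration
    set T : ℕ → ℕ → ℕ := fun i => ex (rnd M i s) with hT
    have hTc : ∀ i < M, Cfg (c + r) N (T i) := fun i hi => hcfg (rnd_adm hM hi hs)
    set E : Finset α := nr ρ m (c + r) (T 0) with hE
    have hEc : E.card ≤ 2 * (c + r) := card_nr h (hTc 0 hM).le
    have hst : ∀ a, a ∉ E → ∀ i < M, wd ρ m (c + r) (T i) a = wd ρ m (c + r) (T 0) a := by
      intro a ha i hi
      refine wd_eq_of fun j hj => ?_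
      have h1 : ρ (T 0 j) a ≠ m - 1 ∧ ρ (T 0 j) a ≠ m := by
        constructor
        · intro h2
          exact ha (mem_filter.2 ⟨mem_univ _, j, hj, Or.inl h2⟩)
        · intro h2
          exact ha (mem_filter.2 ⟨mem_univ _, j, hj, Or.inr h2⟩)
      exact side_eq h h1.1 h1.2 (ex_rnd_step hM hs hi j)
    obtain ⟨io, hio, hround⟩ := Pool.Agent.H12.TP.rounding' M hM
      (fun i a => (fun j : Fin (l + 1) => wd ρ m (c + r) (T i) a j)) E
      (fun a ha i hi => by
        show (fun j : Fin (l + 1) => wd ρ m (c + r) (T i) a j) = _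
        rw [hst a ha i hi])
    set I : α → Finset ℕ := fun a => if a ∈ E then ∅ else eg (c + r) N (T (io a)) with hId
    have hIc : ∀ a, Cst (c + r) (I a) (wd ρ m (c + r) (T 0) a) := by
      intro a
      rw [hId]
      by_cases ha : a ∈ E
      · simp only [if_pos ha]
        exact ⟨fun g hg => by simp at hg, fun hg => by simp at hg⟩
      · simp only [if_neg ha]
        rw [← hst a ha (io a) (hio a)]
        exact wd_cst h hm (by omega) (hTc _ (hio a)) a
    set x : α → Mk := fun a => R.z (wd ρ m (c + r) (T 0) a) (I a) with hx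
    have hV : ∀ g < c + r, |∑ a, vf c r δ (x a) g| ≤ K := by
      intro g hg
      have h1 := hround (fun w i => vf c r δ (R.z (exw w) (eg (c + r) N (T i))) g)
        (fun a => vf c r δ (R.z (wd ρ m (c + r) (T 0) a) ∅) g) 3 (l + 1) (by norm_num)
        (fun w i _ => abs_vf hδ0 hδ2 _ _) (fun a => abs_vf hδ0 hδ2 _ _)
        (fun w => card_change s _ (fun θ h1 h2 h3 => by
          show vf c r δ (R.z (exw w) (eg (c + r) N (T θ))) g =
            vf c r δ (R.z (exw w) (eg (c + r) N (T (θ - 1)))) g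
          have h4 : eg (c + r) N (T θ) = eg (c + r) N (T (θ - 1)) := by
            rw [hC]
            exact h3
          rw [h4]))
      have ew : ∀ i a, exw (fun j : Fin (l + 1) => wd ρ m (c + r) (T i) a j) =
          wd ρ m (c + r) (T i) a := by
        intro i a
        have := exw_wd (ρ := ρ) m (c + r) (T i) a
        rw [← hC]
        exact this
      simp only [ew] at h1
      have e1 : ∑ a, (if a ∈ E then vf c r δ (R.z (wd ρ m (c + r) (T 0) a) ∅) g else
          vf c r δ (R.z (wd ρ m (c + r) (T 0) a) (eg (c + r) N (T (io a)))) g) =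
          ∑ a, vf c r δ (x a) g := by
        refine sum_congr rfl fun a _ => ?_
        rw [hx, hId]
        by_cases ha : a ∈ E
        · simp only [if_pos ha]
        · simp only [if_neg ha]
      rw [e1] at h1
      have hg' : g < l + 1 := by omega
      have e2 : (1 / (M : ℝ)) * ∑ i ∈ range M, ∑ a, vf c r δ (R.z (wd ρ m (c + r) (T i) a)
          (eg (c + r) N (T i))) g = fhat (ff R δ ρ m N) M s ⟨g, hg'⟩ := by
        unfold fhat
        rw [div_mul_eq_mul_div, one_mul]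
        rfl
      rw [e2] at h1
      have h2 := hz ⟨g, hg'⟩
      have h3 : (2 * 3 * (l + 1 : ℕ) * (Fintype.card (Fin (l + 1) → Bool) : ℝ) + 4 * 3 * (E.card : ℝ)) ≤
          (2 * 3 * (l + 1 : ℕ) * (Fintype.card (Fin (l + 1) → Bool) : ℕ) +
            4 * 3 * (2 * (l + 1) : ℕ)) := by
        have : (E.card : ℝ) ≤ (2 * (l + 1) : ℕ) := by
          rw [← hC]
          exact_mod_cast hEc
        linarith
      have e3 : ∑ a, vf c r δ (x a) g = (∑ a, vf c r δ (x a) g - fhat (ff R δ ρ m N) M s ⟨g, hg'⟩) +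
          fhat (ff R δ ρ m N) M s ⟨g, hg'⟩ := by ring
      rw [e3, hK]
      refine (abs_add_le _ _).trans ?_
      linarith
    obtain ⟨hA, hW⟩ := counts_of_vf hc hr x (fun a => R.hZ _ _) (fun a => R.hWp _ _)
      (fun a => R.hWm _ _) (fun a => R.count _ _ (hIc a)) hV
    have hcr : (0 : ℝ) < c + r := by linarith
    have e4 : c * (Fintype.card α : ℝ) * (1 - δ) / (c + r) = c * (n : ℝ) / Lr := by
      rw [hδ1, ← hnd]
      field_simp
    have e5 : c * (Fintype.card α : ℝ) * (1 - δ) / (c + r) + (Fintype.card α : ℝ) * δ =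
        (1 - r / Lr) * (n : ℝ) := by
      rw [e4, ← hnd, hδ]
      have : (c : ℝ) = Lr - (k + 1) * r := by rw [hLe]; ring
      rw [this]
      field_simp
      ring
    rw [e5] at hW
    rw [e4] at hA
    refine fin (T 0) (hTc 0 hM) I hIc (2 * (r + c + 2) * K) ?_ hA hW
    have : 0 ≤ 4 * S₀ := by positivity
    linarith

end Pool.Agent.H98.RS
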